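import Pool.Agent.H626R2.Loc.GDefs
import Pool.Agent.H862R2.LocC1d

/-!
# S1: the coefficients of `ren s σ` for `σ` of sum type, sparse with bounded individual degrees

Adapted from `coeff_ren_sum` (helper584, `LocC1c`).
-/

set_option autoImplicit false

namespace Pool.Agent.H626R2.Loc

open MvPolynomial

namespace S1

variable {K : Type} [Field K] {n : ℕ}

/-- the exponents of the alive variables -/
noncomputable def al {r : ℕ} (s : Fin r → Fin n) (m : Fin n →₀ ℕ) : Fin r →₀ ℕ :=
  Finsupp.equivFunOnFinite.symm fun b => m (s b)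

open Classical in
/-- the exponents of the dead variables -/
noncomputable def de {r : ℕ} (s : Fin r → Fin n) (m : Fin n →₀ ℕ) : Fin n →₀ ℕ :=
  m.filter fun i => ¬ ∃ b, s b = i

theorem ren_monomial {r : ℕ} (s : Fin r → Fin n) (hs : Function.Injective s) (m : Fin n →₀ ℕ)
    (c : K) : ren s (monomial m c) = monomial (al s m) (monomial (de s m) c) := by
  classical
  have e1 : ∀ {N : ℕ} {R : Type} [CommRing R] (e : Fin N →₀ ℕ) (x : R),
      (monomial e x : MvPolynomial (Fin N) R) = C x * ∏ i, X i ^ e i := by
    intro N R _ e x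
    rw [monomial_eq, Finsupp.prod_fintype]
    intro i
    rw [pow_zero]
  have hC : ren s (C c : MvPolynomial (Fin n) K) = C (C c) := by
    rw [← algebraMap_eq, AlgHom.commutes]
    rfl
  rw [e1 m c, map_mul, map_prod, hC, e1 (al s m), e1 (de s m)]
  set I : Finset (Fin n) := Finset.univ.image s with hI
  rw [← Finset.prod_mul_prod_compl I (fun i => ren s (X i ^ m i)),
    ← Finset.prod_mul_prod_compl I (fun i => (X i : MvPolynomial (Fin n) K) ^ de s m i)]
  have e2 : ∏ i ∈ I, ren (K := K) s (X i ^ m i) = ∏ b, X b ^ al s m b := by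
    rw [hI, Finset.prod_image (fun a _ b _ h => hs h)]
    refine Finset.prod_congr rfl fun b _ => ?_
    rw [map_pow, C1d.ren_X_alive s hs]
    rfl
  have e3 : ∏ i ∈ I, (X i : MvPolynomial (Fin n) K) ^ de s m i = 1 := by
    refine Finset.prod_eq_one fun i hi => ?_
    obtain ⟨b, -, rfl⟩ := Finset.mem_image.1 hi
    have : de s m (s b) = 0 := by
      unfold de
      rw [Finsupp.filter_apply_neg]
      exact fun h => h ⟨b, rfl⟩
    rw [this, pow_zero]
  have e4 : ∏ i ∈ Iᶜ, ren (K := K) s (X i ^ m i) =
      C (∏ i ∈ Iᶜ, (X i : MvPolynomial (Fin n) K) ^ de s m i) := by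
    rw [map_prod]
    refine Finset.prod_congr rfl fun i hi => ?_
    have hi' : ¬ ∃ b, s b = i := by
      rintro ⟨b, rfl⟩
      exact Finset.mem_compl.1 hi (Finset.mem_image_of_mem s (Finset.mem_univ b))
    have : de s m i = m i := by
      unfold de
      rw [Finsupp.filter_apply_pos]
      exact hi'
    rw [map_pow, C1d.ren_X_dead s i hi', this, map_pow]
  rw [e2, e3, e4, one_mul, C_mul]
  ring

theorem coeff_ren {r : ℕ} (s : Fin r → Fin n) (hs : Function.Injective s)
    (q : MvPolynomial (Fin n) K) (α : Fin r →₀ ℕ) :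
    coeff α (ren s q) = ∑ m ∈ q.support.filter (fun m => al s m = α),
      monomial (de s m) (coeff m q) := by
  classical
  conv_lhs => rw [q.as_sum, map_sum, coeff_sum]
  rw [Finset.sum_filter]
  refine Finset.sum_congr rfl fun m _ => ?_
  rw [ren_monomial s hs, coeff_monomial]

theorem card_support_coeff_ren {r : ℕ} (s : Fin r → Fin n) (hs : Function.Injective s)
    (q : MvPolynomial (Fin n) K) (α : Fin r →₀ ℕ) :
    (coeff α (ren s q)).support.card ≤ q.support.card := by
  classical
  rw [coeff_ren s hs]
  have h : (∑ m ∈ q.support.filter (fun m => al s m = α),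
      monomial (de s m) (coeff m q)).support ⊆ q.support.image (de s) := by
    refine (support_sum).trans ?_
    intro β hβ
    rw [Finset.mem_biUnion] at hβ
    obtain ⟨m, hm, hβ⟩ := hβ
    have := support_monomial_subset hβ
    rw [Finset.mem_singleton] at this
    rw [this]
    exact Finset.mem_image_of_mem _ (Finset.mem_filter.1 hm).1
  exact (Finset.card_le_card h).trans Finset.card_image_le

theorem degreeOf_coeff_ren {r : ℕ} (s : Fin r → Fin n) (hs : Function.Injective s) {d : ℕ}
    (q : MvPolynomial (Fin n) K) (hq : ∀ m, q.degreeOf m ≤ d) (α : Fin r →₀ ℕ) (i : Fin n) :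
    (coeff α (ren s q)).degreeOf i ≤ d := by
  classical
  rw [coeff_ren s hs, degreeOf_le_iff]
  intro β hβ
  have := support_sum hβ
  rw [Finset.mem_biUnion] at this
  obtain ⟨m, hm, hβ⟩ := this
  have h1 := support_monomial_subset hβ
  rw [Finset.mem_singleton] at h1
  rw [h1]
  have h2 := degreeOf_le_iff.1 (hq i) m (Finset.mem_filter.1 hm).1
  refine le_trans ?_ h2
  unfold de
  rw [Finsupp.filter_apply]
  split_ifs <;> simp

theorem le_of_coeff_ren {r : ℕ} (s : Fin r → Fin n) (hs : Function.Injective s) {d : ℕ}
    (q : MvPolynomial (Fin n) K) (hq : ∀ m, q.degreeOf m ≤ d) (α : Fin r →₀ ℕ)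
    (h : coeff α (ren s q) ≠ 0) (b : Fin r) : α b ≤ d := by
  classical
  rw [coeff_ren s hs] at h
  obtain ⟨m, hm, -⟩ := Finset.exists_ne_zero_of_sum_ne_zero h
  rw [Finset.mem_filter] at hm
  rw [← hm.2]
  exact degreeOf_le_iff.1 (hq (s b)) m hm.1

/-- the index set -/
theorem exists_index {r k : ℕ} (hr : r ≤ k) (d : ℕ) : ∃ f : Fin ((d + 1) ^ k) → (Fin r →₀ ℕ),
    ∀ α : Fin r →₀ ℕ, (∀ b, α b ≤ d) → ∃ i, f i = α := by
  refine ⟨fun i => Finsupp.equivFunOnFinite.symm
    fun b => ((finFunctionFinEquiv.symm i (Fin.castLE hr b) : Fin (d + 1)) : ℕ), fun α hα => ?_⟩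
  refine ⟨finFunctionFinEquiv fun j : Fin k =>
    if h : (j : ℕ) < r then ⟨α ⟨j, h⟩, Nat.lt_succ_of_le (hα _)⟩ else 0, ?_⟩
  ext b
  simp

end S1

open C1d

variable {K : Type} [Field K] {n : ℕ}

/-- S1. -/
theorem coeff_ren_sumS {r k : ℕ} (hr : r ≤ k) (s : Fin r → Fin n) (hs : Function.Injective s)
    {L sp d : ℕ} {σ : MvPolynomial (Fin n) K} (hσ : SumS L sp d σ) :
    ∃ F : Fin ((d + 1) ^ k) → MvPolynomial (Fin n) K, (∀ i, SumS L sp d (F i)) ∧
      ∀ m, (ren s σ).coeff m ∈ Algebra.adjoin K (Set.range F) := by
  classical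
  obtain ⟨u, q, hu, hsp, hd, rfl⟩ := hσ
  obtain ⟨f, hf⟩ := S1.exists_index hr d
  set I : Finset (Fin n) := Finset.univ.image s with hI
  set U : MvPolynomial (Fin n) K := ∑ m ∈ Iᶜ, Polynomial.aeval (X m) (u m) with hU
  refine ⟨fun i => (if f i = 0 then U else 0) + coeff (f i) (ren s q), ?_, ?_⟩
  · intro i
    refine ⟨fun m => if f i = 0 then (if m ∈ I then 0 else u m) else 0,
      coeff (f i) (ren s q), ?_, (S1.card_support_coeff_ren s hs q _).trans hsp,
      fun m => S1.degreeOf_coeff_ren s hs q hd _ m, ?_⟩
    · intro m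
      by_cases h0 : f i = 0
      · by_cases h1 : m ∈ I
        · simp [h0, h1]
        · simp only [h0, if_true, h1, if_false]
          exact hu m
      · simp [h0]
    · change (if f i = 0 then U else 0) + coeff (f i) (ren s q) = _
      congr 1
      by_cases h0 : f i = 0
      · simp only [if_pos h0]
        rw [← Finset.sum_add_sum_compl I
          (fun m => Polynomial.aeval (X m : MvPolynomial (Fin n) K) (if m ∈ I then 0 else u m))]
        have h1 : ∑ m ∈ I, Polynomial.aeval (X m : MvPolynomial (Fin n) K)
            (if m ∈ I then 0 else u m) = 0 := by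
          apply Finset.sum_eq_zero
          intro m hm
          rw [if_pos hm, map_zero]
        rw [h1, zero_add, hU]
        apply Finset.sum_congr rfl
        intro m hm
        rw [if_neg (Finset.mem_compl.mp hm)]
      · simp only [if_neg h0, map_zero, Finset.sum_const_zero]
  · intro m
    -- the sum of the univariate polynomials
    have h1 : ren s (∑ m, Polynomial.aeval (X m : MvPolynomial (Fin n) K) (u m))
        = MvPolynomial.map (C : K →+* MvPolynomial (Fin n) K)
            (∑ b, Polynomial.aeval (X b : MvPolynomial (Fin r) K) (u (s b))) + C U := by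
      rw [← Finset.sum_add_sum_compl I, map_add]
      congr 1
      · rw [hI, Finset.sum_image (fun a _ b _ h => hs h), map_sum, map_sum]
        apply Finset.sum_congr rfl
        intro b _
        rw [← Polynomial.aeval_algHom_apply, ren_X_alive s hs]
        have h2 : (MvPolynomial.map (C : K →+* MvPolynomial (Fin n) K)
            (Polynomial.aeval (X b : MvPolynomial (Fin r) K) (u (s b))))
            = MvPolynomial.mapAlgHom (Algebra.ofId K (MvPolynomial (Fin n) K))
              (Polynomial.aeval (X b : MvPolynomial (Fin r) K) (u (s b))) := rfl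
        rw [h2, ← Polynomial.aeval_algHom_apply]
        congr 1
        simp [MvPolynomial.mapAlgHom_apply]
      · rw [hU, map_sum, map_sum]
        apply Finset.sum_congr rfl
        intro i hi
        rw [← Polynomial.aeval_algHom_apply, ren_X_dead s i]
        · have h2 : (C (Polynomial.aeval (X i : MvPolynomial (Fin n) K) (u i)) :
              MvPolynomial (Fin r) (MvPolynomial (Fin n) K))
              = IsScalarTower.toAlgHom K (MvPolynomial (Fin n) K)
                (MvPolynomial (Fin r) (MvPolynomial (Fin n) K))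
                (Polynomial.aeval (X i : MvPolynomial (Fin n) K) (u i)) := rfl
          rw [h2, ← Polynomial.aeval_algHom_apply]
          rfl
        · rintro ⟨b, hb⟩
          apply Finset.mem_compl.mp hi
          rw [hI, ← hb]
          exact Finset.mem_image_of_mem s (Finset.mem_univ b)
    rw [map_add, h1, coeff_add, coeff_add, coeff_map, add_assoc]
    apply Subalgebra.add_mem
    · exact Subalgebra.algebraMap_mem _ _
    · by_cases hm : ∀ b, m b ≤ d
      · obtain ⟨i, hi⟩ := hf m hm
        apply Algebra.subset_adjoin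
        refine ⟨i, ?_⟩
        simp only [hi, coeff_C]
        congr 1
        by_cases h0 : m = 0
        · rw [if_pos h0, if_pos h0.symm]
        · rw [if_neg h0, if_neg (Ne.symm h0)]
      · have h0 : m ≠ 0 := by
          rintro rfl
          exact hm fun b => Nat.zero_le _
        have h2 : coeff m (ren s q) = 0 := by
          by_contra hb
          exact hm fun b => S1.le_of_coeff_ren s hs q hd m hb b
        rw [h2, coeff_C, if_neg (Ne.symm h0), add_zero]
        exact Subalgebra.zero_mem _

end Pool.Agent.H626R2.Loc
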