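import Mathlib
import Pool.Agent.Helper924.MW.Density

/-!
# A density argument: sets of integers avoiding pairs of conditions `n ≡ c_q (mod q)`, `r ∥ n`
-/

namespace Pool.Agent.H771R2.Dens

open Filter Topology Finset Classical

/-- the number of `n < N` with `p n` -/
noncomputable def cnt (p : ℕ → Prop) (N : ℕ) : ℕ := ((range N).filter p).card

/-- `p` is periodic with period `M`, of density at most `δ` -/
def Per (p : ℕ → Prop) (M : ℕ) (δ : ℝ) : Prop :=
  0 < M ∧ (∀ n, p (n + M) ↔ p n) ∧ (cnt p M : ℝ) ≤ δ * M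

theorem cnt_mono {p p' : ℕ → Prop} (h : ∀ n, p n → p' n) (N : ℕ) : cnt p N ≤ cnt p' N :=
  card_le_card fun n hn => by
    rw [mem_filter] at hn ⊢
    exact ⟨hn.1, h n hn.2⟩

theorem cnt_le (p : ℕ → Prop) (N : ℕ) : cnt p N ≤ N := by
  unfold cnt
  exact (card_filter_le _ _).trans (by rw [card_range])

theorem cnt_le_card {p : ℕ → Prop} {N : ℕ} {s : Finset ℕ} (h : ∀ n < N, p n → n ∈ s) :
    cnt p N ≤ s.card :=
  card_le_card fun n hn => by
    rw [mem_filter, mem_range] at hn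
    exact h n hn.1 hn.2

theorem cnt_or (p p' : ℕ → Prop) (N : ℕ) : cnt (fun n => p n ∨ p' n) N ≤ cnt p N + cnt p' N := by
  refine (cnt_le_card (s := (range N).filter p ∪ (range N).filter p') ?_).trans (card_union_le _ _)
  intro n hn h
  rw [mem_union, mem_filter, mem_filter, mem_range]
  rcases h with h | h
  · exact Or.inl ⟨hn, h⟩
  · exact Or.inr ⟨hn, h⟩

theorem per_mod {p : ℕ → Prop} {M : ℕ} (h : ∀ n, p (n + M) ↔ p n) (n : ℕ) : p (n % M) ↔ p n := by
  conv_rhs => rw [← Nat.mod_add_div n M]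
  generalize n / M = k
  generalize n % M = m
  induction k with
  | zero => simp
  | succ k ih => rw [Nat.mul_succ, ← add_assoc, h]; exact ih

theorem cnt_add {p : ℕ → Prop} {M : ℕ} (h : ∀ n, p (n + M) ↔ p n) (k : ℕ) :
    cnt p (M * k) = k * cnt p M := by
  induction k with
  | zero => simp [cnt]
  | succ k ih =>
    have h1 : range (M * (k + 1)) = range (M * k) ∪ (range M).map (addLeftEmbedding (M * k)) := by
      rw [Nat.mul_succ, range_add_eq_union]
    have h2 : cnt p (M * (k + 1)) = cnt p (M * k) + cnt p M := by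
      unfold cnt
      rw [h1, filter_union, card_union_of_disjoint]
      · congr 1
        rw [filter_map, card_map]
        congr 1
        apply filter_congr
        intro n _
        simp only [Function.comp_apply, addLeftEmbedding_apply]
        rw [← per_mod h (M * k + n), Nat.mul_add_mod, per_mod h]
      · apply disjoint_filter_filter
        exact disjoint_range_addLeftEmbedding _ _
    rw [h2, ih]
    ring

theorem Per.count {p : ℕ → Prop} {M : ℕ} {δ : ℝ} (h : Per p M δ) (N : ℕ) :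
    (cnt p N : ℝ) ≤ δ * N + M := by
  obtain ⟨hM, hp, hc⟩ := h
  have h1 : cnt p N = cnt p (M * (N / M)) + ((Ico (M * (N / M)) N).filter p).card := by
    unfold cnt
    rw [← card_union_of_disjoint]
    · rw [← filter_union]
      congr 2
      rw [range_eq_Ico, range_eq_Ico, Ico_union_Ico_eq_Ico (Nat.zero_le _) (Nat.mul_div_le N M)]
    · apply disjoint_filter_filter
      rw [range_eq_Ico]
      exact Ico_disjoint_Ico_consecutive _ _ _
  have h2 : ((Ico (M * (N / M)) N).filter p).card ≤ M := by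
    refine (card_filter_le _ _).trans ?_
    rw [Nat.card_Ico]
    have := Nat.mod_add_div N M
    have := Nat.mod_lt N hM
    omega
  rw [h1, cnt_add hp]
  push_cast
  have h3 : ((N / M : ℕ) : ℝ) ≤ (N : ℝ) / M := Nat.cast_div_le
  have hM' : (0 : ℝ) < M := by exact_mod_cast hM
  have h4 : ((N / M : ℕ) : ℝ) * (cnt p M : ℝ) ≤ (N : ℝ) / M * (δ * M) :=
    mul_le_mul h3 hc (Nat.cast_nonneg _) (by positivity)
  have h5 : (N : ℝ) / M * (δ * M) = δ * N := by field_simp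
  have h6 : (((Ico (M * (N / M)) N).filter p).card : ℝ) ≤ M := by exact_mod_cast h2
  linarith

theorem Per.and {p p' : ℕ → Prop} {M M' : ℕ} {δ δ' : ℝ} (h : Per p M δ) (h' : Per p' M' δ')
    (hδ : 0 ≤ δ) (hc : Nat.Coprime M M') : Per (fun n => p n ∧ p' n) (M * M') (δ * δ') := by
  obtain ⟨hM, hp, hpc⟩ := h
  obtain ⟨hM', hp', hpc'⟩ := h'
  have per_mul : ∀ {p : ℕ → Prop} {M : ℕ} (_ : ∀ n, p (n + M) ↔ p n) (k n : ℕ),
      p (n + M * k) ↔ p n := by
    intro p M h k n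
    rw [← per_mod h, Nat.add_mul_mod_self_left, per_mod h]
  refine ⟨Nat.mul_pos hM hM', fun n => ?_, ?_⟩
  · change p (n + M * M') ∧ p' (n + M * M') ↔ p n ∧ p' n
    rw [per_mul hp, mul_comm M M', per_mul hp']
  have h1 : cnt (fun n => p n ∧ p' n) (M * M') ≤ cnt p M * cnt p' M' := by
    unfold cnt
    rw [← card_product]
    refine card_le_card_of_injOn (fun n => (n % M, n % M')) ?_ ?_
    · intro n hn
      simp only [coe_filter, Set.mem_ofPred_eq, mem_range] at hn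
      simp only [coe_product, coe_filter, Set.mem_prod, Set.mem_ofPred_eq, mem_range]
      exact ⟨⟨Nat.mod_lt _ hM, (per_mod hp n).2 hn.2.1⟩, ⟨Nat.mod_lt _ hM', (per_mod hp' n).2 hn.2.2⟩⟩
    · intro n hn m hm hnm
      simp only [coe_filter, Set.mem_ofPred_eq, mem_range] at hn hm
      simp only [Prod.mk.injEq] at hnm
      have h3 : n ≡ m [MOD M * M'] := (Nat.modEq_and_modEq_iff_modEq_mul hc).1 ⟨hnm.1, hnm.2⟩
      exact Nat.ModEq.eq_of_lt_of_lt h3 hn.1 hm.1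
  have h2 : (cnt (fun n => p n ∧ p' n) (M * M') : ℝ) ≤ cnt p M * cnt p' M' := by
    exact_mod_cast h1
  refine h2.trans ?_
  push_cast
  calc (cnt p M : ℝ) * cnt p' M' ≤ (δ * M) * (δ' * M') :=
        mul_le_mul hpc hpc' (Nat.cast_nonneg _) (by positivity)
    _ = _ := by ring

theorem Per.true : Per (fun _ => True) 1 1 := by
  refine ⟨one_pos, fun _ => Iff.rfl, ?_⟩
  have := cnt_le (fun _ => True) 1
  have h : (cnt (fun _ => True) 1 : ℝ) ≤ 1 := by exact_mod_cast this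
  simpa using h

theorem Per.forall {ι : Type} (F : Finset ι) (p : ι → ℕ → Prop) (M : ι → ℕ) (δ : ι → ℝ)
    (h : ∀ i ∈ F, Per (p i) (M i) (δ i)) (hδ : ∀ i ∈ F, 0 ≤ δ i)
    (hc : ∀ i ∈ F, ∀ j ∈ F, i ≠ j → Nat.Coprime (M i) (M j)) :
    Per (fun n => ∀ i ∈ F, p i n) (∏ i ∈ F, M i) (∏ i ∈ F, δ i) := by
  induction F using Finset.induction_on with
  | empty => simpa using Per.true
  | insert a F ha ih =>
    have h1 := ih (fun i hi => h i (mem_insert_of_mem hi)) (fun i hi => hδ i (mem_insert_of_mem hi))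
      (fun i hi j hj => hc i (mem_insert_of_mem hi) j (mem_insert_of_mem hj))
    have h2 := (h a (mem_insert_self a F)).and h1 (hδ a (mem_insert_self a F))
      (Nat.Coprime.prod_right fun i hi => hc a (mem_insert_self a F) i (mem_insert_of_mem hi)
        (by rintro rfl; exact ha hi))
    rw [prod_insert ha, prod_insert ha]
    simpa only [forall_mem_insert] using h2

theorem per_ne {q : ℕ} (hq : 0 < q) (c : ℕ) :
    Per (fun n => n % q ≠ c % q) q (Real.exp (-(1 / (q : ℝ)))) := by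
  refine ⟨hq, fun n => by simp, ?_⟩
  have h1 : cnt (fun n => n % q ≠ c % q) q + 1 ≤ q := by
    have h3 : cnt (fun n => n % q ≠ c % q) q ≤ ((range q).erase (c % q)).card := by
      apply cnt_le_card
      intro n hn hn'
      rw [mem_erase, mem_range]
      refine ⟨fun h => hn' ?_, hn⟩
      rw [h, Nat.mod_mod]
    rw [card_erase_of_mem (by rw [mem_range]; exact Nat.mod_lt _ hq), card_range] at h3
    omega
  have h2 : (cnt (fun n => n % q ≠ c % q) q : ℝ) + 1 ≤ q := by exact_mod_cast h1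
  have hq' : (0 : ℝ) < q := by exact_mod_cast hq
  have h3 := Real.add_one_le_exp (-(1 / (q : ℝ)))
  have h4 : ((q : ℝ) - 1) = (-(1 / (q : ℝ)) + 1) * q := by field_simp; ring
  calc (cnt (fun n => n % q ≠ c % q) q : ℝ) ≤ (q : ℝ) - 1 := by linarith
    _ = (-(1 / (q : ℝ)) + 1) * q := h4
    _ ≤ _ := mul_le_mul_of_nonneg_right h3 hq'.le

theorem per_exact {r : ℕ} (hr : r.Prime) :
    Per (fun n => ¬ (r ∣ n ∧ ¬ r ^ 2 ∣ n)) (r ^ 2) (Real.exp (-(1 / (2 * (r : ℝ))))) := by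
  have hr0 : 0 < r := hr.pos
  refine ⟨by positivity, fun n => ?_, ?_⟩
  · change ¬ (r ∣ n + r ^ 2 ∧ ¬ r ^ 2 ∣ n + r ^ 2) ↔ ¬ (r ∣ n ∧ ¬ r ^ 2 ∣ n)
    rw [Nat.dvd_add_left (dvd_pow_self r two_ne_zero), Nat.dvd_add_self_right]
  have h1 : cnt (fun n => ¬ (r ∣ n ∧ ¬ r ^ 2 ∣ n)) (r ^ 2) + (r - 1) ≤ r ^ 2 := by
    have h3 : cnt (fun n => ¬ (r ∣ n ∧ ¬ r ^ 2 ∣ n)) (r ^ 2) ≤
        ((range (r ^ 2)) \ ((Ico 1 r).image (fun i => r * i))).card := by
      apply cnt_le_card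
      intro n hn hn'
      rw [Finset.mem_sdiff, mem_range]
      refine ⟨hn, fun h => hn' ?_⟩
      rw [mem_image] at h
      obtain ⟨i, hi, rfl⟩ := h
      rw [mem_Ico] at hi
      refine ⟨dvd_mul_right _ _, fun h => ?_⟩
      rw [sq] at h
      have := Nat.dvd_of_mul_dvd_mul_left hr0 h
      exact absurd (Nat.le_of_dvd (by omega) this) (by omega)
    have h4 : (Ico 1 r).image (fun i => r * i) ⊆ range (r ^ 2) := by
      intro n hn
      rw [mem_image] at hn
      obtain ⟨i, hi, rfl⟩ := hn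
      rw [mem_Ico] at hi
      rw [mem_range, sq]
      exact Nat.mul_lt_mul_of_pos_left hi.2 hr0
    rw [card_sdiff_of_subset h4, card_image_of_injective _ (fun a b h => Nat.eq_of_mul_eq_mul_left hr0 h),
      Nat.card_Ico, card_range] at h3
    have h5 : r - 1 ≤ r ^ 2 := by nlinarith [Nat.sub_le r 1]
    omega
  have hr2 : (2 : ℝ) ≤ r := by exact_mod_cast hr.two_le
  have h2 : (cnt (fun n => ¬ (r ∣ n ∧ ¬ r ^ 2 ∣ n)) (r ^ 2) : ℝ) + (r - 1) ≤ (r : ℝ) ^ 2 := by
    have h := (Nat.cast_le (α := ℝ)).2 h1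
    push_cast [Nat.cast_sub hr.one_lt.le] at h
    exact h
  have hr' : (0 : ℝ) < r := by linarith
  have h3 := Real.add_one_le_exp (-(1 / (2 * (r : ℝ))))
  have h4 : (r : ℝ) ^ 2 - (r - 1) ≤ (-(1 / (2 * (r : ℝ))) + 1) * (r : ℝ) ^ 2 := by
    have : (-(1 / (2 * (r : ℝ))) + 1) * (r : ℝ) ^ 2 = r ^ 2 - r / 2 := by field_simp; ring
    rw [this]
    linarith
  calc (cnt (fun n => ¬ (r ∣ n ∧ ¬ r ^ 2 ∣ n)) (r ^ 2) : ℝ) ≤ (r : ℝ) ^ 2 - (r - 1) := by linarith
    _ ≤ (-(1 / (2 * (r : ℝ))) + 1) * (r : ℝ) ^ 2 := h4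
    _ ≤ Real.exp (-(1 / (2 * (r : ℝ)))) * (r : ℝ) ^ 2 := mul_le_mul_of_nonneg_right h3 (by positivity)
    _ = _ := by push_cast; ring

/-- a set of primes, the sum of whose reciprocals diverges -/
def Big (P : ℕ → Prop) : Prop :=
  ∀ B : ℝ, ∃ F : Finset ℕ, (∀ p ∈ F, p.Prime ∧ P p) ∧ B ≤ ∑ p ∈ F, 1 / (p : ℝ)

/-- primes in an arithmetic progression -/
theorem big_ap {m : ℕ} [NeZero m] {a : ZMod m} (ha : IsUnit a) :
    Big (fun p => (p : ZMod m) = a) := by
  intro B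
  obtain ⟨F0, hF0⟩ : ∃ F0 : Finset ℕ, B < ∑ n ∈ F0, Pool.Agent.Helper924.MW.Density.g a n := by
    by_contra hcon
    push Not at hcon
    exact Pool.Agent.Helper924.MW.Density.not_summable_g ha
      (summable_of_sum_le (fun n => Pool.Agent.Helper924.MW.Density.g_nonneg _ n) hcon)
  refine ⟨F0.filter (fun n => n.Prime ∧ ((n : ℕ) : ZMod m) = a), ?_, ?_⟩
  · intro p hp
    rw [mem_filter] at hp
    exact hp.2
  · rw [sum_filter]
    exact hF0.le

/-- removing finitely many primes -/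
theorem Big.large {P : ℕ → Prop} (h : Big P) (K : ℕ) : Big (fun p => P p ∧ K < p) := by
  intro B
  obtain ⟨F, hF, hB⟩ := h (B + ∑ p ∈ range (K + 1), 1 / (p : ℝ))
  refine ⟨F.filter (fun p => K < p), ?_, ?_⟩
  · intro p hp
    rw [mem_filter] at hp
    exact ⟨(hF p hp.1).1, (hF p hp.1).2, hp.2⟩
  · have h1 := sum_filter_add_sum_filter_not F (fun p => K < p) (fun p => 1 / (p : ℝ))
    have h2 : ∑ p ∈ F.filter (fun p => ¬ K < p), 1 / (p : ℝ) ≤
        ∑ p ∈ range (K + 1), 1 / (p : ℝ) := by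
      apply sum_le_sum_of_subset_of_nonneg
      · intro p hp
        rw [mem_filter] at hp
        rw [mem_range]
        omega
      · intro p _ _
        positivity
    linarith

theorem exists_exp_small {P : ℕ → Prop} (h : Big P) {ε : ℝ} (hε : 0 < ε) :
    ∃ F : Finset ℕ, (∀ p ∈ F, p.Prime ∧ P p) ∧ Real.exp (-(∑ p ∈ F, 1 / (p : ℝ)) / 2) ≤ ε := by
  obtain ⟨F, hF, hB⟩ := h (-2 * Real.log ε)
  refine ⟨F, hF, ?_⟩
  rw [← Real.le_log_iff_exp_le hε]
  linarith

/-- the density theorem -/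
theorem tendsto_zero (S : ℕ → Prop) (Q : ℕ → Prop) (c : ℕ → ℕ) (R : ℕ → ℕ → Prop)
    (hQ : Big Q) (hR : ∀ q, q.Prime → Q q → Big (R q))
    (hS : ∀ n, S n → ∀ q, q.Prime → Q q → n % q = c q % q → ∀ r, r.Prime → R q r → r ∣ n →
      ¬ r ^ 2 ∣ n → False) :
    Tendsto (fun N : ℕ => (cnt S N : ℝ) / N) atTop (𝓝 0) := by
  rw [Metric.tendsto_atTop]
  intro ε hε
  obtain ⟨F, hF, hFε⟩ := exists_exp_small hQ (ε := ε / 4) (by positivity)
  have hcardF : (0 : ℝ) < (F.card : ℝ) + 1 := by positivity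
  have h1 : ∀ q ∈ F, ∃ P : Finset ℕ, (∀ r ∈ P, r.Prime ∧ R q r) ∧
      Real.exp (-(∑ r ∈ P, 1 / (r : ℝ)) / 2) ≤ ε / 4 / (F.card + 1) := fun q hq =>
    exists_exp_small (hR q (hF q hq).1 (hF q hq).2) (by positivity)
  choose! P hP hPε using h1
  have hA : Per (fun n => ∀ q ∈ F, n % q ≠ c q % q) (∏ q ∈ F, q)
      (∏ q ∈ F, Real.exp (-(1 / (q : ℝ)))) :=
    Per.forall F (fun q n => n % q ≠ c q % q) (fun q => q) _
      (fun q hq => per_ne (hF q hq).1.pos _) (fun q _ => (Real.exp_pos _).le)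
      (fun q hq q' hq' h => (Nat.coprime_primes (hF q hq).1 (hF q' hq').1).2 h)
  have hA' : (∏ q ∈ F, Real.exp (-(1 / (q : ℝ)))) ≤ ε / 4 := by
    rw [← Real.exp_sum, sum_neg_distrib]
    refine le_trans ?_ hFε
    rw [Real.exp_le_exp]
    have : 0 ≤ ∑ q ∈ F, 1 / (q : ℝ) := sum_nonneg fun q _ => by positivity
    linarith
  have hB : ∀ q ∈ F, Per (fun n => ∀ r ∈ P q, ¬ (r ∣ n ∧ ¬ r ^ 2 ∣ n)) (∏ r ∈ P q, r ^ 2)
      (∏ r ∈ P q, Real.exp (-(1 / (2 * (r : ℝ))))) := fun q hq =>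
    Per.forall (P q) (fun r n => ¬ (r ∣ n ∧ ¬ r ^ 2 ∣ n)) (fun r => r ^ 2) _
      (fun r hr => per_exact (hP q hq r hr).1) (fun r _ => (Real.exp_pos _).le)
      (fun r hr r' hr' h =>
        ((Nat.coprime_primes (hP q hq r hr).1 (hP q hq r' hr').1).2 h).pow 2 2)
  have hB' : ∀ q ∈ F, (∏ r ∈ P q, Real.exp (-(1 / (2 * (r : ℝ))))) ≤ ε / 4 / (F.card + 1) := by
    intro q hq
    refine le_trans (le_of_eq ?_) (hPε q hq)
    rw [← Real.exp_sum, sum_neg_distrib]
    congr 1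
    rw [neg_div, sum_div]
    congr 1
    refine sum_congr rfl fun r _ => ?_
    rw [one_div, one_div, mul_inv, mul_comm, div_eq_mul_inv]
  have key : ∀ N, cnt S N ≤ cnt (fun n => ∀ q ∈ F, n % q ≠ c q % q) N +
      ∑ q ∈ F, cnt (fun n => ∀ r ∈ P q, ¬ (r ∣ n ∧ ¬ r ^ 2 ∣ n)) N := by
    intro N
    have h2 : cnt S N ≤ ((range N).filter (fun n => ∀ q ∈ F, n % q ≠ c q % q) ∪
        F.biUnion (fun q => (range N).filter
          (fun n => ∀ r ∈ P q, ¬ (r ∣ n ∧ ¬ r ^ 2 ∣ n)))).card := by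
      apply cnt_le_card
      intro n hn hSn
      rw [mem_union, mem_filter, mem_range, mem_biUnion]
      by_cases h3 : ∀ q ∈ F, n % q ≠ c q % q
      · exact Or.inl ⟨hn, h3⟩
      · push Not at h3
        obtain ⟨q, hq, h4⟩ := h3
        refine Or.inr ⟨q, hq, ?_⟩
        rw [mem_filter, mem_range]
        exact ⟨hn, fun r hr h5 => hS n hSn q (hF q hq).1 (hF q hq).2 h4 r (hP q hq r hr).1
          (hP q hq r hr).2 h5.1 h5.2⟩
    refine h2.trans ((card_union_le _ _).trans ?_)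
    refine add_le_add (le_of_eq ?_) (card_biUnion_le.trans (sum_le_sum fun q _ => le_of_eq ?_))
    · unfold cnt
      congr
    · unfold cnt
      congr
  set K : ℝ := ((∏ q ∈ F, q : ℕ) : ℝ) + ∑ q ∈ F, ((∏ r ∈ P q, r ^ 2 : ℕ) : ℝ) with hK
  have key2 : ∀ N : ℕ, (cnt S N : ℝ) ≤ ε / 2 * N + K := by
    intro N
    have h2 : (cnt S N : ℝ) ≤ (cnt (fun n => ∀ q ∈ F, n % q ≠ c q % q) N : ℝ) +
        ∑ q ∈ F, (cnt (fun n => ∀ r ∈ P q, ¬ (r ∣ n ∧ ¬ r ^ 2 ∣ n)) N : ℝ) := by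
      exact_mod_cast key N
    have h3 := hA.count N
    have h4 : ∑ q ∈ F, (cnt (fun n => ∀ r ∈ P q, ¬ (r ∣ n ∧ ¬ r ^ 2 ∣ n)) N : ℝ) ≤
        ∑ q ∈ F, (ε / 4 / (F.card + 1) * N + ((∏ r ∈ P q, r ^ 2 : ℕ) : ℝ)) := by
      refine sum_le_sum fun q hq => ((hB q hq).count N).trans ?_
      have := mul_le_mul_of_nonneg_right (hB' q hq) (Nat.cast_nonneg (α := ℝ) N)
      linarith
    rw [sum_add_distrib, sum_const, nsmul_eq_mul] at h4
    have h5 := mul_le_mul_of_nonneg_right hA' (Nat.cast_nonneg (α := ℝ) N)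
    have h6 : (F.card : ℝ) * (ε / 4 / (F.card + 1) * N) ≤ ε / 4 * N := by
      have : (F.card : ℝ) * (ε / 4 / (F.card + 1) * N) =
          (ε / 4 * N) * (F.card / (F.card + 1)) := by field_simp
      rw [this]
      apply mul_le_of_le_one_right (by positivity)
      rw [div_le_one hcardF]
      linarith
    linarith
  obtain ⟨N0, hN0⟩ := exists_nat_gt (2 * K / ε)
  refine ⟨N0 + 1, fun N hN => ?_⟩
  have hNpos : (0 : ℝ) < N := by
    have : 0 < N := by omega
    exact_mod_cast this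
  have hNN : 2 * K / ε < N := by
    have : (N0 : ℝ) ≤ N := by exact_mod_cast (by omega : N0 ≤ N)
    linarith
  have hMN : K < ε / 2 * N := by
    rw [div_lt_iff₀ hε] at hNN
    linarith
  rw [Real.dist_eq, sub_zero, abs_of_nonneg (by positivity), div_lt_iff₀ hNpos]
  have := key2 N
  linarith

end Pool.Agent.H771R2.Dens
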