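import Mathlib

/-!
# Regular automorphism groups of symmetric designs: a test for arbitrary finite groups
-/

namespace Pool.Agent.H771R2.Lander

open AddMonoidAlgebra

/-! ### the group ring of `ℤ/q` -/

/-- the involution `g ↦ g⁻¹` of the group ring of `ℤ/q` -/
noncomputable def st (R : Type) [CommRing R] (q : ℕ) :
    AddMonoidAlgebra R (ZMod q) →+* AddMonoidAlgebra R (ZMod q) :=
  mapDomainRingHom R (-(AddMonoidHom.id (ZMod q)))

theorem st_single {R : Type} [CommRing R] {q : ℕ} (a : ZMod q) (x : R) :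
    st R q (single a x) = single (-a) x := by
  simp [st]

theorem st_st {R : Type} [CommRing R] {q : ℕ} (x : AddMonoidAlgebra R (ZMod q)) :
    st R q (st R q x) = x := by
  have : (st R q).comp (st R q) = RingHom.id _ := by
    apply AddMonoidAlgebra.ringHom_ext
    · intro b; simp [st_single]
    · intro a; simp [st_single]
  exact congrArg (fun f => f x) this

theorem pow_eq_st {q r : ℕ} [Fact r.Prime] {j : ℕ} (hj : (r : ZMod q) ^ j = -1)
    (x : AddMonoidAlgebra (ZMod r) (ZMod q)) : x ^ (r ^ j) = st (ZMod r) q x := by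
  have : CharP (AddMonoidAlgebra (ZMod r) (ZMod q)) r :=
    charP_of_injective_algebraMap (algebraMap (ZMod r) _).injective r
  have h : iterateFrobenius (AddMonoidAlgebra (ZMod r) (ZMod q)) r j = st (ZMod r) q := by
    apply AddMonoidAlgebra.ringHom_ext
    · intro b
      rw [iterateFrobenius_def, single_pow, st_single, ZMod.pow_card_pow]
      simp
    · intro a
      rw [iterateFrobenius_def, single_pow, st_single, one_pow, nsmul_eq_mul, Nat.cast_pow, hj,
        neg_one_mul]
  rw [← h, iterateFrobenius_def]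

/-- `x x^* = 0` implies `x = 0` in `𝔽_r[ℤ/q]` if `-1` is a power of `r` modulo `q` -/
theorem eq_zero_of_mul_st {q r : ℕ} [Fact r.Prime] {j : ℕ} (hj0 : j ≠ 0)
    (hj : (r : ZMod q) ^ j = -1) {x : AddMonoidAlgebra (ZMod r) (ZMod q)}
    (h : x * st (ZMod r) q x = 0) : x = 0 := by
  have h1 : x ^ (1 + r ^ j) = 0 := by
    rw [pow_add, pow_one, pow_eq_st hj, h]
  have h2 : x ^ (r ^ j * r ^ j) = x := by
    rw [pow_mul, pow_eq_st hj, pow_eq_st hj, st_st]
  have hr : 2 ≤ r ^ j := by
    calc 2 ≤ r := (Fact.out : r.Prime).two_le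
      _ = r ^ 1 := (pow_one r).symm
      _ ≤ r ^ j := Nat.pow_le_pow_right (Fact.out : r.Prime).pos (Nat.one_le_iff_ne_zero.2 hj0)
  have h3 : 1 + r ^ j ≤ r ^ j * r ^ j := by nlinarith
  rw [← h2, ← Nat.sub_add_cancel h3, pow_add, h1, mul_zero]

/-- reduction modulo `r` -/
noncomputable def red (r q : ℕ) : AddMonoidAlgebra ℤ (ZMod q) →+* AddMonoidAlgebra (ZMod r) (ZMod q) :=
  mapRingHom (ZMod q) (Int.castRingHom (ZMod r))

theorem red_coeff (r q : ℕ) (x : AddMonoidAlgebra ℤ (ZMod q)) (i : ZMod q) :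
    (red r q x).coeff i = ((x.coeff i : ℤ) : ZMod r) := by
  simp [red]

theorem red_st (r q : ℕ) (x : AddMonoidAlgebra ℤ (ZMod q)) :
    red r q (st ℤ q x) = st (ZMod r) q (red r q x) := by
  have : (red r q).comp (st ℤ q) = (st (ZMod r) q).comp (red r q) := by
    apply AddMonoidAlgebra.ringHom_ext
    · intro b; simp [st_single, red]
    · intro a; simp [st_single, red]
  exact congrArg (fun f => f x) this

theorem exists_of_red_eq_zero {r q : ℕ} {x : AddMonoidAlgebra ℤ (ZMod q)}
    (h : red r q x = 0) : ∃ y : AddMonoidAlgebra ℤ (ZMod q), x = (r : ℤ) • y := by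
  have h1 : ∀ i, (r : ℤ) ∣ x.coeff i := by
    intro i
    rw [← ZMod.intCast_zmod_eq_zero_iff_dvd _ r, ← red_coeff, h]
    simp
  refine ⟨AddMonoidAlgebra.ofCoeff (x.coeff.mapRange (fun a => a / (r : ℤ)) (by simp)), ?_⟩
  ext i
  simp only [coeff_smul, Finsupp.smul_apply, Finsupp.mapRange_apply, smul_eq_mul]
  exact (Int.mul_ediv_cancel' (h1 i)).symm

theorem dvd_of_dvd_mul_st {q r : ℕ} [Fact r.Prime] {j : ℕ} (hj0 : j ≠ 0)
    (hj : (r : ZMod q) ^ j = -1) {x z : AddMonoidAlgebra ℤ (ZMod q)}
    (h : x * st ℤ q x = (r : ℤ) • z) : ∃ y, x = (r : ℤ) • y := by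
  apply exists_of_red_eq_zero
  apply eq_zero_of_mul_st hj0 hj
  rw [← red_st, ← map_mul, h, map_zsmul]
  ext i
  rw [coeff_smul_apply, zsmul_eq_mul]
  simp

/-- `(1 - X)(1 - X⁻¹)` -/
noncomputable def ff (q : ℕ) : AddMonoidAlgebra ℤ (ZMod q) :=
  (1 - single 1 1) * st ℤ q (1 - single 1 1)

theorem ff_coeff {q : ℕ} (hq : 2 < q) : (ff q).coeff 1 = -1 := by
  have h1 : ff q = single 0 2 - single 1 1 - single (-1) 1 := by
    unfold ff
    rw [map_sub, map_one, st_single, one_def]
    rw [sub_mul, mul_sub, mul_sub, single_mul_single, single_mul_single, single_mul_single,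
      single_mul_single]
    simp only [add_zero, zero_add, mul_one, add_neg_cancel]
    rw [show (single 0 2 : AddMonoidAlgebra ℤ (ZMod q)) = single 0 1 + single 0 1 by
      rw [← single_add]; norm_num]
    abel
  have : NeZero q := ⟨by omega⟩
  have : Fact (1 < q) := ⟨by omega⟩
  have h2 : (1 : ZMod q) ≠ 0 := one_ne_zero
  have h3 : (1 : ZMod q) ≠ -1 := by
    intro h
    have h4 : ((2 : ℕ) : ZMod q) = 0 := by
      push_cast
      linear_combination h
    rw [ZMod.natCast_eq_zero_iff] at h4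
    exact absurd (Nat.le_of_dvd (by norm_num) h4) (by omega)
  rw [h1]
  simp [h3.symm]

/-- the descent -/
theorem descent {q r : ℕ} (hr : r.Prime) (hq : 2 < q) {j : ℕ}
    (hj : (r : ZMod q) ^ j = -1) {u : ℤ} (hu : ¬ (r : ℤ) ∣ u) (s : ℕ) :
    ∀ e : AddMonoidAlgebra ℤ (ZMod q), e * st ℤ q e ≠ ((r : ℤ) ^ (2 * s + 1) * u) • ff q := by
  have : Fact r.Prime := ⟨hr⟩
  have hj0 : j ≠ 0 := by
    rintro rfl
    have h4 : ((2 : ℕ) : ZMod q) = 0 := by
      push_cast
      linear_combination hj
    rw [ZMod.natCast_eq_zero_iff] at h4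
    exact absurd (Nat.le_of_dvd (by norm_num) h4) (by omega)
  have hr0 : (r : ℤ) ≠ 0 := by exact_mod_cast hr.ne_zero
  have cancel : ∀ a b : AddMonoidAlgebra ℤ (ZMod q), (r : ℤ) • a = (r : ℤ) • b → a = b := by
    intro a b h
    ext i
    have h1 : ((r : ℤ) • a).coeff i = ((r : ℤ) • b).coeff i := by rw [h]
    rw [coeff_smul_apply, coeff_smul_apply] at h1
    exact mul_left_cancel₀ hr0 h1
  induction s with
  | zero =>
    intro e he
    obtain ⟨y, rfl⟩ := dvd_of_dvd_mul_st hj0 hj (z := u • ff q) (by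
      rw [he, smul_smul]; congr 1; ring)
    have h1 : (r : ℤ) • ((r : ℤ) • (y * st ℤ q y)) = (r : ℤ) • (u • ff q) := by
      have : (r : ℤ) • y * st ℤ q ((r : ℤ) • y) = (r : ℤ) • ((r : ℤ) • (y * st ℤ q y)) := by
        rw [map_zsmul, smul_mul_assoc, mul_smul_comm]
      rw [← this, he, smul_smul]
      congr 1
      ring
    have h2 := cancel _ _ h1
    have h3 := congrArg (fun x => x.coeff 1) h2
    simp only [coeff_smul, Finsupp.smul_apply, smul_eq_mul, ff_coeff hq] at h3
    exact hu ⟨-((y * st ℤ q y).coeff 1), by linarith⟩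
  | succ s ih =>
    intro e he
    obtain ⟨y, rfl⟩ := dvd_of_dvd_mul_st hj0 hj (z := ((r : ℤ) ^ (2 * s + 2) * u) • ff q) (by
      rw [he, smul_smul]; congr 1; ring)
    have h1 : (r : ℤ) • ((r : ℤ) • (y * st ℤ q y)) =
        (r : ℤ) • ((r : ℤ) • (((r : ℤ) ^ (2 * s + 1) * u) • ff q)) := by
      have : (r : ℤ) • y * st ℤ q ((r : ℤ) • y) = (r : ℤ) • ((r : ℤ) • (y * st ℤ q y)) := by
        rw [map_zsmul, smul_mul_assoc, mul_smul_comm]
      rw [← this, he, smul_smul, smul_smul]
      congr 1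
      ring
    exact ih y (cancel _ _ (cancel _ _ h1))

/-! ### matrices with a semiregular automorphism -/

/-- the sum of all group elements -/
noncomputable def nm (q : ℕ) [NeZero q] : AddMonoidAlgebra ℤ (ZMod q) := ∑ e : ZMod q, single e 1

theorem one_sub_mul_nm (q : ℕ) [NeZero q] : (1 - single 1 1) * nm q = 0 := by
  unfold nm
  rw [sub_mul, one_mul, Finset.mul_sum]
  simp only [single_mul_single, mul_one]
  rw [sub_eq_zero]
  exact (Equiv.sum_comp (Equiv.addLeft (1 : ZMod q)) (fun e => single e (1 : ℤ))).symm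

theorem single_sum' {q : ℕ} {ι : Type} (s : Finset ι) (f : ι → ℤ) (e : ZMod q) :
    (single e (∑ i ∈ s, f i) : AddMonoidAlgebra ℤ (ZMod q)) = ∑ i ∈ s, single e (f i) :=
  map_sum (singleAddHom e) f s

/-- the matrix over the group ring -/
noncomputable def mat {q : ℕ} [NeZero q] {T : Type} (A : T × ZMod q → T × ZMod q → ℤ) :
    Matrix T T (AddMonoidAlgebra ℤ (ZMod q)) :=
  fun s t => ∑ c : ZMod q, single c (A (s, 0) (t, c))

theorem mat_mul {q : ℕ} [NeZero q] {T : Type} [Fintype T] [DecidableEq T]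
    (A : T × ZMod q → T × ZMod q → ℤ) (N lam : ℤ)
    (hA : ∀ x z, ∑ y, A x y * A z y = (if x = z then N else 0) + lam)
    (hinv : ∀ (s t : T) (i j c : ZMod q), A (s, i + c) (t, j + c) = A (s, i) (t, j)) :
    mat A * (((mat A).map (st ℤ q)).transpose) =
      (N : AddMonoidAlgebra ℤ (ZMod q)) • (1 : Matrix T T (AddMonoidAlgebra ℤ (ZMod q))) +
      nm q • Matrix.of (fun _ _ => (lam : AddMonoidAlgebra ℤ (ZMod q))) := by
  funext s u
  have key : ∀ e : ZMod q, ∑ t : T, ∑ c' : ZMod q, A (s, 0) (t, e + c') * A (u, 0) (t, c') =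
      (if s = u ∧ e = 0 then N else 0) + lam := by
    intro e
    have h1 := hA (s, -e) (u, 0)
    rw [Fintype.sum_prod_type] at h1
    have h2 : ((s, -e) = (u, (0 : ZMod q))) ↔ (s = u ∧ e = 0) := by
      rw [Prod.mk.injEq, neg_eq_zero]
    simp only [h2] at h1
    rw [← h1]
    refine Finset.sum_congr rfl fun t _ => Finset.sum_congr rfl fun c' _ => ?_
    congr 1
    have := hinv s t (-e) c' e
    rw [neg_add_cancel, add_comm c' e] at this
    exact this
  have h3 : (mat A * (((mat A).map (st ℤ q)).transpose)) s u =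
      ∑ e : ZMod q, single e ((if s = u ∧ e = 0 then N else 0) + lam) := by
    rw [Matrix.mul_apply]
    simp only [Matrix.transpose_apply, Matrix.map_apply, mat, map_sum, st_single,
      Finset.sum_mul_sum, single_mul_single]
    have h4 : ∀ t : T, ∑ c : ZMod q, ∑ c' : ZMod q,
        single (c + -c') (A (s, 0) (t, c) * A (u, 0) (t, c')) =
        ∑ e : ZMod q, single e (∑ c' : ZMod q, A (s, 0) (t, e + c') * A (u, 0) (t, c')) := by
      intro t
      rw [Finset.sum_comm]
      have h5 : ∀ c' : ZMod q, ∑ c : ZMod q,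
          (single (c + -c') (A (s, 0) (t, c) * A (u, 0) (t, c')) : AddMonoidAlgebra ℤ (ZMod q)) =
          ∑ e : ZMod q, single e (A (s, 0) (t, e + c') * A (u, 0) (t, c')) := by
        intro c'
        rw [← Equiv.sum_comp (Equiv.addRight c')]
        refine Finset.sum_congr rfl fun e _ => ?_
        simp
      simp only [h5]
      rw [Finset.sum_comm]
      refine Finset.sum_congr rfl fun e _ => ?_
      rw [single_sum']
    simp only [h4]
    rw [Finset.sum_comm]
    refine Finset.sum_congr rfl fun e _ => ?_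
    rw [← key e, single_sum']
  rw [h3]
  simp only [Matrix.add_apply, Matrix.smul_apply, Matrix.one_apply, Matrix.of_apply, smul_eq_mul,
    single_add, Finset.sum_add_distrib]
  congr 1
  · by_cases hsu : s = u
    · simp only [hsu, true_and, if_true, mul_one]
      rw [Finset.sum_eq_single (0 : ZMod q)]
      · simp [intCast_def]
      · intro b _ hb
        simp [hb]
      · simp
    · simp [hsu]
  · unfold nm
    rw [Finset.sum_mul]
    refine Finset.sum_congr rfl fun e _ => ?_
    rw [intCast_def, single_mul_single]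
    simp

theorem det_mod {B : Type} [CommRing B] {T : Type} [Fintype T] [DecidableEq T] (N n : B)
    (K : Matrix T T B) : ∃ b : B, (N • (1 : Matrix T T B) + n • K).det =
      N ^ Fintype.card T + n * b := by
  have h : Ideal.Quotient.mk (Ideal.span {n}) ((N • (1 : Matrix T T B) + n • K).det) =
      Ideal.Quotient.mk (Ideal.span {n}) (N ^ Fintype.card T) := by
    rw [RingHom.map_det]
    have h1 : (Ideal.Quotient.mk (Ideal.span {n})).mapMatrix (N • (1 : Matrix T T B) + n • K) =
        (Ideal.Quotient.mk (Ideal.span {n}) N) • (1 : Matrix T T _) := by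
      funext i j
      have hn : Ideal.Quotient.mk (Ideal.span {n}) n = 0 :=
        Ideal.Quotient.eq_zero_iff_mem.2 (Ideal.mem_span_singleton_self n)
      simp only [RingHom.mapMatrix_apply, Matrix.map_apply, Matrix.add_apply, Matrix.smul_apply,
        smul_eq_mul, map_add, map_mul, hn, zero_mul, add_zero, Matrix.one_apply]
      congr 1
      split_ifs <;> simp
    rw [h1, Matrix.det_smul, Matrix.det_one, mul_one, map_pow]
  rw [Ideal.Quotient.eq, Ideal.mem_span_singleton'] at h
  obtain ⟨b, hb⟩ := h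
  exact ⟨b, by linear_combination -hb⟩

/-- The test: there is no square integral matrix `A` of size `w q` (`w` odd, `q > 2`) with
`A Aᵀ = N I + lam J`, invariant under a semiregular automorphism of order `q`, if
`v_r(N)` is odd for a prime `r` such that `-1` is a power of `r` modulo `q`. -/
theorem test {q : ℕ} [NeZero q] (hq : 2 < q) {T : Type} [Fintype T] [DecidableEq T]
    (A : T × ZMod q → T × ZMod q → ℤ) (N lam : ℤ)
    (hA : ∀ x z, ∑ y, A x y * A z y = (if x = z then N else 0) + lam)
    (hinv : ∀ (s t : T) (i j c : ZMod q), A (s, i + c) (t, j + c) = A (s, i) (t, j))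
    (hT : Odd (Fintype.card T)) {r : ℕ} (hr : r.Prime) {j : ℕ} (hj : (r : ZMod q) ^ j = -1)
    {a : ℕ} (ha : Odd a) {u : ℤ} (hu : ¬ (r : ℤ) ∣ u) (hN : N = (r : ℤ) ^ a * u) : False := by
  obtain ⟨b, hb⟩ := det_mod (N : AddMonoidAlgebra ℤ (ZMod q)) (nm q)
    (Matrix.of (fun (_ _ : T) => (lam : AddMonoidAlgebra ℤ (ZMod q))))
  rw [← mat_mul A N lam hA hinv, Matrix.det_mul, Matrix.det_transpose] at hb
  have h1 : ((mat A).map (st ℤ q)).det = st ℤ q (mat A).det := by
    rw [RingHom.map_det]
    rfl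
  rw [h1] at hb
  obtain ⟨s, hs⟩ : Odd (a * Fintype.card T) := ha.mul hT
  have hr' : Prime (r : ℤ) := Nat.prime_iff_prime_int.1 hr
  have hu' : ¬ (r : ℤ) ∣ u ^ Fintype.card T := fun h => hu (hr'.dvd_of_dvd_pow h)
  apply descent hr hq hj hu' s ((1 - single 1 1) * (mat A).det)
  have h2 : (1 - single 1 1) * (mat A).det * st ℤ q ((1 - single 1 1) * (mat A).det) =
      ff q * ((mat A).det * st ℤ q (mat A).det) := by
    rw [map_mul, ff]
    ring
  rw [h2, hb, hN]
  have h3 : ff q * nm q = 0 := by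
    rw [ff, mul_right_comm, one_sub_mul_nm, zero_mul]
  rw [mul_add, ← mul_assoc, h3, zero_mul, add_zero, ← hs, zsmul_eq_mul, pow_mul]
  push_cast
  ring

/-! ### difference sets in arbitrary finite groups -/

/-- **Test for difference sets in arbitrary finite groups of odd order.**
If `G` (of odd order) contains a `(v, k, lam)` difference set, `q` is a prime divisor of `|G|`, and
the prime `r` has a power `≡ -1` modulo `q`, then `v_r(k - lam)` is even. -/
theorem no_difference_set {G : Type} [Group G] [Fintype G] [DecidableEq G] (D : Finset G)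
    (k lam : ℕ) (hk : D.card = k)
    (hD : ∀ g : G, g ≠ 1 → ((D ×ˢ D).filter (fun p => p.1 * p.2⁻¹ = g)).card = lam)
    (hodd : Odd (Fintype.card G)) {q r : ℕ} (hq : q.Prime) (hqG : q ∣ Fintype.card G)
    (hr : r.Prime) {j : ℕ} (hj : (r : ZMod q) ^ j = -1) {a : ℕ} (ha : Odd a) {u : ℤ}
    (hu : ¬ (r : ℤ) ∣ u) (hN : (k : ℤ) - lam = (r : ℤ) ^ a * u) : False := by
  classical
  have hqf : Fact q.Prime := ⟨hq⟩
  have : NeZero q := ⟨hq.ne_zero⟩
  obtain ⟨g, hg⟩ := exists_prime_orderOf_dvd_card q hqG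
  have hq2 : 2 < q := by
    have h1 : q ≠ 2 := by
      rintro rfl
      exact (Nat.not_even_iff_odd.2 hodd) (even_iff_two_dvd.2 hqG)
    have := hq.two_le
    omega
  set H := Subgroup.zpowers g with hH
  let T := G ⧸ H
  have hTfin : Fintype T := Fintype.ofFinite T
  let pw : ZMod q → G := fun i => g ^ i.val
  have hpw : ∀ i c : ZMod q, pw (i + c) = pw i * pw c := by
    intro i c
    simp only [pw]
    have h := pow_mod_orderOf g (i.val + c.val)
    rw [hg] at h
    rw [ZMod.val_add, ← pow_add, h]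
  let φ : T × ZMod q → G := fun p => p.1.out * pw p.2
  have hpwH : ∀ i, pw i ∈ H := fun i => Subgroup.pow_mem _ (Subgroup.mem_zpowers g) _
  have hφ : Function.Bijective φ := by
    constructor
    · rintro ⟨t, i⟩ ⟨t', i'⟩ h
      simp only [φ] at h
      have h1 : (QuotientGroup.mk (t.out * pw i) : T) = QuotientGroup.mk (t'.out * pw i') := by
        rw [h]
      rw [QuotientGroup.mk_mul_of_mem _ (hpwH i), QuotientGroup.mk_mul_of_mem _ (hpwH i')] at h1
      have h2 : t = t' := by
        rw [← QuotientGroup.out_eq' t, ← QuotientGroup.out_eq' t']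
        exact h1
      subst h2
      have h3 : g ^ i.val = g ^ i'.val := mul_left_cancel h
      have h4 : i.val = i'.val :=
        pow_injOn_Iio_orderOf (by rw [Set.mem_Iio, hg]; exact ZMod.val_lt i)
          (by rw [Set.mem_Iio, hg]; exact ZMod.val_lt i') h3
      rw [ZMod.val_injective q h4]
    · intro y
      have h1 : ((QuotientGroup.mk y : T).out)⁻¹ * y ∈ H :=
        QuotientGroup.eq.1 (QuotientGroup.out_eq' (QuotientGroup.mk y : T))
      rw [hH, mem_zpowers_iff_mem_range_orderOf, Finset.mem_image] at h1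
      obtain ⟨n, hn, hn'⟩ := h1
      rw [Finset.mem_range, hg] at hn
      refine ⟨(QuotientGroup.mk y, (n : ZMod q)), ?_⟩
      simp only [φ, pw]
      rw [ZMod.val_cast_of_lt hn, hn', mul_inv_cancel_left]
  have hcard : Fintype.card G = Fintype.card T * q := by
    rw [← Fintype.card_of_bijective hφ, Fintype.card_prod, ZMod.card]
  have hTodd : Odd (Fintype.card T) := by
    rw [hcard] at hodd
    exact (Nat.odd_mul.1 hodd).1
  let A0 : G → G → ℤ := fun x y => if x * y⁻¹ ∈ D then 1 else 0
  have hA0 : ∀ x z : G, ∑ y, A0 x y * A0 z y = (if x = z then ((k : ℤ) - lam) else 0) + lam := by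
    intro x z
    have h1 : ∑ y, A0 x y * A0 z y =
        (((Finset.univ : Finset G).filter (fun y => x * y⁻¹ ∈ D ∧ z * y⁻¹ ∈ D)).card : ℤ) := by
      rw [Finset.card_filter]
      push_cast
      refine Finset.sum_congr rfl fun y _ => ?_
      simp only [A0]
      by_cases h1 : x * y⁻¹ ∈ D <;> by_cases h2 : z * y⁻¹ ∈ D <;> simp [h1, h2]
    have h2 : ((Finset.univ : Finset G).filter (fun y => x * y⁻¹ ∈ D ∧ z * y⁻¹ ∈ D)).card =
        ((D ×ˢ D).filter (fun p => p.1 * p.2⁻¹ = x * z⁻¹)).card := by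
      refine Finset.card_bij (fun y _ => (x * y⁻¹, z * y⁻¹)) ?_ ?_ ?_
      · intro y hy
        simp only [Finset.mem_filter, Finset.mem_univ, true_and] at hy
        simp only [Finset.mem_filter, Finset.mem_product]
        exact ⟨hy, by group⟩
      · intro y _ y' _ h
        simp only [Prod.mk.injEq, mul_right_inj, inv_inj] at h
        exact h.1
      · rintro ⟨d1, d2⟩ hd
        simp only [Finset.mem_filter, Finset.mem_product] at hd
        obtain ⟨⟨hd1, hd2⟩, hd3⟩ := hd
        have h3 : z * (d1⁻¹ * x)⁻¹ = d2 := by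
          have : d1 = x * z⁻¹ * d2 := by rw [← hd3]; group
          rw [this]
          group
        refine ⟨d1⁻¹ * x, ?_, ?_⟩
        · simp only [Finset.mem_filter, Finset.mem_univ, true_and]
          refine ⟨by simpa using hd1, by rw [h3]; exact hd2⟩
        · rw [h3]
          simp
    rw [h1, h2]
    by_cases hxz : x = z
    · subst hxz
      rw [if_pos rfl, mul_inv_cancel]
      have h4 : (D ×ˢ D).filter (fun p : G × G => p.1 * p.2⁻¹ = 1) = D.diag := by
        ext ⟨d1, d2⟩
        simp only [Finset.mem_filter, Finset.mem_product, Finset.mem_diag, mul_inv_eq_one]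
        constructor
        · rintro ⟨⟨h1, h2⟩, h3⟩; exact ⟨h1, h3⟩
        · rintro ⟨h1, rfl⟩; exact ⟨⟨h1, h1⟩, rfl⟩
      rw [h4, Finset.diag_card, hk]
      ring
    · rw [if_neg hxz, hD _ (by rwa [Ne, mul_inv_eq_one]), zero_add]
  refine test hq2 (fun p p' => A0 (φ p) (φ p')) ((k : ℤ) - lam) lam ?_ ?_ hTodd hr hj ha hu hN
  · intro x z
    rw [Function.Bijective.sum_comp hφ (fun y => A0 (φ x) y * A0 (φ z) y), hA0]
    simp only [hφ.1.eq_iff]
  · intro s t i i' c
    simp only [A0, φ, hpw]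
    have : s.out * (pw i * pw c) * (t.out * (pw i' * pw c))⁻¹ =
        s.out * pw i * (t.out * pw i')⁻¹ := by group
    rw [this]

end Pool.Agent.H771R2.Lander
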