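import Mathlib
import Pool.Agent.H771R2.Lander
import Pool.Agent.H771R2.Dens

/-!
# Difference sets with Singer parameters: density zero
-/

namespace Pool.Agent.H771R2.SingerDS

open Filter Topology Pool.Agent.H771R2.Dens Pool.Agent.H771R2.Lander

/-- some group contains a difference set with the Singer parameters `(n, m)` -/
def HasSinger (n m : ℕ) : Prop :=
  ∃ (G : Type) (_ : Group G) (_ : Fintype G) (_ : DecidableEq G) (D : Finset G),
    Fintype.card G * (n - 1) = n ^ m - 1 ∧ D.card * (n - 1) = n ^ (m - 1) - 1 ∧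
    ∀ g : G, g ≠ 1 →
      ((D ×ˢ D).filter (fun p : G × G => p.1 * p.2⁻¹ = g)).card * (n - 1) = n ^ (m - 2) - 1

/-- a non-residue modulo an odd prime, as a residue class -/
theorem exists_nonres {q : ℕ} (hq : q.Prime) (hq2 : 2 < q) :
    ∃ a : ZMod q, IsUnit a ∧ a ^ ((q - 1) / 2) = -1 := by
  have : Fact q.Prime := ⟨hq⟩
  have h2 : ringChar (ZMod q) ≠ 2 := by
    rw [ZMod.ringChar_zmod_n]
    omega
  obtain ⟨a, ha⟩ := FiniteField.exists_nonsquare h2
  have ha0 : a ≠ 0 := by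
    rintro rfl
    exact ha IsSquare.zero
  refine ⟨a, isUnit_iff_ne_zero.2 ha0, ?_⟩
  have h3 := ZMod.pow_div_two_eq_neg_one_or_one q ha0
  have h4 : q / 2 = (q - 1) / 2 := by
    have := hq.odd_of_ne_two (by omega)
    obtain ⟨k, hk⟩ := this
    omega
  rw [h4] at h3
  rcases h3 with h3 | h3
  · exfalso
    apply ha
    rw [← h4] at h3
    exact (ZMod.euler_criterion q ha0).2 h3
  · exact h3

/-- an element of order `l` modulo `q ≡ 1 (mod l)` -/
theorem exists_root {q l : ℕ} (hq : q.Prime) (hl : l.Prime) (h : (q : ZMod l) = 1) :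
    ∃ c : ℕ, (c : ZMod q) ^ l = 1 ∧ (c : ZMod q) ≠ 1 := by
  have : Fact q.Prime := ⟨hq⟩
  have hdvd : l ∣ Fintype.card (ZMod q)ˣ := by
    rw [ZMod.card_units]
    have h1 : ((q - 1 : ℕ) : ZMod l) = 0 := by
      rw [Nat.cast_sub hq.one_lt.le, h]
      simp
    exact (ZMod.natCast_eq_zero_iff _ _).1 h1
  have : Fact l.Prime := ⟨hl⟩
  obtain ⟨x, hx⟩ := exists_prime_orderOf_dvd_card l hdvd
  refine ⟨((x : (ZMod q)ˣ) : ZMod q).val, ?_, ?_⟩
  · rw [ZMod.natCast_zmod_val, ← Units.val_pow_eq_pow_val, ← hx, pow_orderOf_eq_one]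
    rfl
  · rw [ZMod.natCast_zmod_val]
    intro h1
    have h2 : x = 1 := Units.ext h1
    rw [h2, orderOf_one] at hx
    exact hl.one_lt.ne hx

theorem odd_geom (n j : ℕ) : Odd (∑ i ∈ Finset.range (2 * j + 1), n ^ i) := by
  induction j with
  | zero => simp
  | succ j ih =>
    rw [show 2 * (j + 1) + 1 = 2 * j + 1 + 1 + 1 by ring, Finset.sum_range_succ,
      Finset.sum_range_succ, add_assoc]
    refine ih.add_even ?_
    have h1 : n ^ (2 * j + 1) + n ^ (2 * j + 1 + 1) = n ^ (2 * j + 1) * (n + 1) := by ring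
    rw [h1]
    rcases Nat.even_or_odd n with h | h
    · exact (h.pow_of_ne_zero (by omega)).mul_right _
    · exact (Nat.even_add_one.2 (Nat.not_even_iff_odd.2 h)).mul_left _

/-- the exclusion -/
theorem excluded {n m l q r : ℕ} (hm : Odd m) (hm3 : 3 ≤ m) (hlm : l ∣ m)
    (hn : 2 ≤ n) (h : HasSinger n m) (hq : q.Prime)
    (hqn : (n : ZMod q) ^ l = 1) (hqn1 : (n : ZMod q) ≠ 1) (hr : r.Prime) (hrn : r ∣ n)
    (hrn2 : ¬ r ^ 2 ∣ n) (hrq : (r : ZMod q) ^ ((q - 1) / 2) = -1) : False := by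
  obtain ⟨G, hG, hGf, hGd, D, h1, h2, h3⟩ := h
  have : Fact q.Prime := ⟨hq⟩
  have hn1 : 0 < n - 1 := by omega
  -- sizes
  have hgeom : ∀ j : ℕ, (∑ i ∈ Finset.range j, n ^ i) * (n - 1) = n ^ j - 1 := by
    intro j
    exact Nat.geomSum_eq (by omega) j ▸ (Nat.div_mul_cancel (by
      simpa using Nat.sub_dvd_pow_sub_pow n 1 j))
  have hv : Fintype.card G = ∑ i ∈ Finset.range m, n ^ i :=
    Nat.eq_of_mul_eq_mul_right hn1 (h1.trans (hgeom m).symm)
  have hk : D.card = ∑ i ∈ Finset.range (m - 1), n ^ i :=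
    Nat.eq_of_mul_eq_mul_right hn1 (h2.trans (hgeom (m - 1)).symm)
  have hlam : ∀ g : G, g ≠ 1 → ((D ×ˢ D).filter (fun p : G × G => p.1 * p.2⁻¹ = g)).card =
      ∑ i ∈ Finset.range (m - 2), n ^ i := fun g hg =>
    Nat.eq_of_mul_eq_mul_right hn1 ((h3 g hg).trans (hgeom (m - 2)).symm)
  -- `v` is odd
  have hodd : Odd (Fintype.card G) := by
    obtain ⟨j, rfl⟩ := hm
    rw [hv]
    exact odd_geom n j
  -- `q ∣ v`
  have hqv : q ∣ Fintype.card G := by
    rw [← ZMod.natCast_eq_zero_iff]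
    have h4 : ((Fintype.card G * (n - 1) : ℕ) : ZMod q) = 0 := by
      rw [h1, Nat.cast_sub (Nat.one_le_pow _ _ (by omega))]
      obtain ⟨t, rfl⟩ := hlm
      push_cast
      rw [pow_mul, hqn, one_pow, sub_self]
    rw [Nat.cast_mul] at h4
    rcases mul_eq_zero.1 h4 with h5 | h5
    · exact h5
    · exfalso
      rw [Nat.cast_sub (by omega), sub_eq_zero] at h5
      exact hqn1 (by simpa using h5)
  obtain ⟨u, hu⟩ := hrn
  have hru : ¬ (r : ℤ) ∣ ((u : ℤ) ^ (m - 2)) := by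
    intro h4
    have h5 := (Nat.prime_iff_prime_int.1 hr).dvd_of_dvd_pow h4
    have h6 : r ∣ u := by exact_mod_cast h5
    apply hrn2
    rw [hu, sq]
    exact Nat.mul_dvd_mul_left r h6
  refine no_difference_set D _ _ hk hlam hodd hq hqv hr hrq (a := m - 2) ?_ hru ?_
  · obtain ⟨j, rfl⟩ := hm
    exact ⟨j - 1, by omega⟩
  · have h4 : m - 1 = (m - 2) + 1 := by omega
    rw [h4, Finset.sum_range_succ]
    push_cast
    rw [hu]
    push_cast
    ring

/-- **Main theorem.** Let `l` be an odd prime. For almost all `n` there is no difference set with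
Singer parameters `(n, m)`, in any group, for any odd `m` divisible by `l`. -/
theorem main {l : ℕ} (hl : l.Prime) :
    Tendsto (fun N : ℕ => (cnt (fun n => 2 ≤ n ∧ ∃ m, Odd m ∧ 3 ≤ m ∧ l ∣ m ∧ HasSinger n m) N : ℝ) / N)
      atTop (𝓝 0) := by
  classical
  have h1 : ∀ q : ℕ, ∃ c : ℕ, q.Prime → (q : ZMod l) = 1 →
      (c : ZMod q) ^ l = 1 ∧ (c : ZMod q) ≠ 1 := by
    intro q
    by_cases hq : q.Prime ∧ (q : ZMod l) = 1
    · obtain ⟨c, hc⟩ := exists_root hq.1 hl hq.2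
      exact ⟨c, fun _ _ => hc⟩
    · exact ⟨0, fun h h' => absurd ⟨h, h'⟩ hq⟩
  choose c hc using h1
  have h2 : ∀ q : ℕ, ∃ a : ZMod q, q.Prime → 2 < q → IsUnit a ∧ a ^ ((q - 1) / 2) = -1 := by
    intro q
    by_cases hq : q.Prime ∧ 2 < q
    · obtain ⟨a, ha⟩ := exists_nonres hq.1 hq.2
      exact ⟨a, fun _ _ => ha⟩
    · exact ⟨0, fun h h' => absurd ⟨h, h'⟩ hq⟩
  choose a ha using h2
  have : NeZero l := ⟨hl.ne_zero⟩
  refine tendsto_zero _ (fun q => (q : ZMod l) = 1 ∧ 2 < q) c (fun q r => (r : ZMod q) = a q)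
    ((big_ap isUnit_one).large 2) ?_ ?_
  · intro q hq hq'
    have : NeZero q := ⟨hq.ne_zero⟩
    exact big_ap (ha q hq hq'.2).1
  · rintro n ⟨hn, m, hm, hm3, hlm, h⟩ q hq ⟨hq1, hq2⟩ hnc r hr hrq hrn hrn2
    have h3 : (n : ZMod q) = (c q : ZMod q) := (ZMod.natCast_eq_natCast_iff' _ _ _).2 hnc
    obtain ⟨h4, h5⟩ := hc q hq hq1
    rw [← h3] at h4 h5
    refine excluded hm hm3 hlm hn h hq h4 h5 hr hrn hrn2 ?_
    rw [hrq]
    exact (ha q hq hq2).2

end Pool.Agent.H771R2.SingerDS
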