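import Mathlib
import Pool.Agent.H771R2.SingerDS

/-!
# Difference sets with Hadamard (Paley) parameters `(4w-1, 2w-1, w-1)`: density zero
-/

namespace Pool.Agent.H771R2.HadamardDS

open Filter Topology Pool.Agent.H771R2.Dens Pool.Agent.H771R2.Lander Pool.Agent.H771R2.SingerDS

/-- some group contains a `(4w-1, 2w-1, w-1)` difference set -/
def HasHadamard (w : ℕ) : Prop :=
  ∃ (G : Type) (_ : Group G) (_ : Fintype G) (_ : DecidableEq G) (D : Finset G),
    Fintype.card G = 4 * w - 1 ∧ D.card = 2 * w - 1 ∧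
    ∀ g : G, g ≠ 1 → ((D ×ˢ D).filter (fun p : G × G => p.1 * p.2⁻¹ = g)).card = w - 1

theorem excluded {w q r : ℕ} (hw : 1 ≤ w) (h : HasHadamard w) (hq : q.Prime)
    (hqn : (4 * w : ZMod q) = 1) (hr : r.Prime) (hrn : r ∣ w)
    (hrn2 : ¬ r ^ 2 ∣ w) (hrq : (r : ZMod q) ^ ((q - 1) / 2) = -1) : False := by
  obtain ⟨G, hG, hGf, hGd, D, h1, h2, h3⟩ := h
  have : Fact q.Prime := ⟨hq⟩
  have hodd : Odd (Fintype.card G) := by
    rw [h1]
    exact ⟨2 * w - 1, by omega⟩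
  have hqv : q ∣ Fintype.card G := by
    rw [← ZMod.natCast_eq_zero_iff, h1, Nat.cast_sub (by omega)]
    push_cast
    rw [hqn, sub_self]
  obtain ⟨u, hu⟩ := hrn
  have hru : ¬ (r : ℤ) ∣ (u : ℤ) := by
    intro h4
    have h6 : r ∣ u := by exact_mod_cast h4
    apply hrn2
    rw [hu, sq]
    exact Nat.mul_dvd_mul_left r h6
  refine no_difference_set D _ _ h2 h3 hodd hq hqv hr hrq (a := 1) odd_one hru ?_
  rw [Nat.cast_sub (by omega), Nat.cast_sub (by omega)]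
  push_cast
  have : (w : ℤ) = r * u := by exact_mod_cast hu
  rw [pow_one, ← this]
  ring

/-- for almost all `w` no group contains a `(4w-1, 2w-1, w-1)` difference set -/
theorem main :
    Tendsto (fun N : ℕ => (cnt (fun w => 1 ≤ w ∧ HasHadamard w) N : ℝ) / N) atTop (𝓝 0) := by
  classical
  have h1 : ∀ q : ℕ, ∃ c : ℕ, q.Prime → 2 < q → (4 * c : ZMod q) = 1 := by
    intro q
    by_cases hq : q.Prime ∧ 2 < q
    · have : Fact q.Prime := ⟨hq.1⟩
      refine ⟨((4 : ZMod q)⁻¹).val, fun _ _ => ?_⟩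
      have h4 : (4 : ZMod q) ≠ 0 := by
        intro h
        have h5 : ((4 : ℕ) : ZMod q) = 0 := by exact_mod_cast h
        rw [ZMod.natCast_eq_zero_iff] at h5
        have h6 : q ∣ 2 ^ 2 := by simpa using h5
        have h7 := (Nat.prime_dvd_prime_iff_eq hq.1 Nat.prime_two).1 (hq.1.dvd_of_dvd_pow h6)
        omega
      rw [ZMod.natCast_zmod_val, mul_inv_cancel₀ h4]
    · exact ⟨0, fun h h' => absurd ⟨h, h'⟩ hq⟩
  choose c hc using h1
  have h2 : ∀ q : ℕ, ∃ a : ZMod q, q.Prime → 2 < q → IsUnit a ∧ a ^ ((q - 1) / 2) = -1 := by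
    intro q
    by_cases hq : q.Prime ∧ 2 < q
    · obtain ⟨a, ha⟩ := exists_nonres hq.1 hq.2
      exact ⟨a, fun _ _ => ha⟩
    · exact ⟨0, fun h h' => absurd ⟨h, h'⟩ hq⟩
  choose a ha using h2
  refine tendsto_zero _ (fun q => (q : ZMod 1) = 1 ∧ 2 < q) c (fun q r => (r : ZMod q) = a q)
    ((big_ap isUnit_one).large 2) ?_ ?_
  · intro q hq hq'
    have : NeZero q := ⟨hq.ne_zero⟩
    exact big_ap (ha q hq hq'.2).1
  · rintro n ⟨hn, h⟩ q hq ⟨_, hq2⟩ hnc r hr hrq hrn hrn2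
    have h3 : (n : ZMod q) = (c q : ZMod q) := (ZMod.natCast_eq_natCast_iff' _ _ _).2 hnc
    have h4 := hc q hq hq2
    rw [← h3] at h4
    refine excluded hn h hq h4 hr hrn hrn2 ?_
    rw [hrq]
    exact (ha q hq hq2).2

end Pool.Agent.H771R2.HadamardDS
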